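import Pool.Agent.R389.Brauer
import Pool.Agent.R389.Mono
import Pool.Agent.R389.Del
import Pool.Agent.Helper8K9.DC.Sig

/-!
# Brauer's theorem for characters with values in a field
-/

set_option autoImplicit false

namespace Pool.Agent.Helper51K9.RG

open Pool.Agent.R389 Pool.Agent.H541R3.ART

variable {G : Type} [Group G] [Finite G]

/-- all virtual characters are generated by the characters induced from linear characters of nilpotent
subgroups -/
theorem closure_irr_le : AddSubgroup.closure (Irr G) ≤ PN G := by
  intro f hf
  have hcl : ∀ g x : G, f (x * g * x⁻¹) = f g := by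
    induction hf using AddSubgroup.closure_induction with
    | mem x hx => exact fun g y => Irr.conj hx g y
    | zero => intro g x; rfl
    | add a b _ _ ha hb => intro g x; simp only [Pi.add_apply, ha, hb]
    | neg a _ ha => intro g x; simp only [Pi.neg_apply, ha]
  have key : ∀ D ∈ PN G, (fun g => D g * f g) ∈ PN G := by
    intro D hD
    unfold PN at hD
    induction hD using AddSubgroup.closure_induction with
    | mem x hx =>
      obtain ⟨V, ψ, hV, rfl⟩ := hx
      have h0 : (fun v : V => f v) ∈ AddSubgroup.closure (Irr V) :=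
        Pool.Agent.W446.AS.Virt.comp (G := G) hf V.subtype
      have h1 : ∀ g ∈ AddSubgroup.closure (Irr V),
          (fun v : V => ((ψ v : ℂˣ) : ℂ) * g v) ∈ PN V := by
        intro g hg
        induction hg using AddSubgroup.closure_induction with
        | mem x hx =>
          obtain ⟨J, μ, hμ⟩ := nil_mono _ V rfl hV x hx
          have h2 : (fun v : V => ((ψ v : ℂˣ) : ℂ) * x v)
              = ind J (fun h => (((μ * ψ.comp J.subtype) h : ℂˣ) : ℂ)) := by
            funext v
            have h3 := ind_mul J (fun h => ((μ h : ℂˣ) : ℂ))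
              (F := fun v : V => ((ψ v : ℂˣ) : ℂ)) (fun g x => by
                simp only [map_mul, map_inv, Units.val_mul]
                rw [mul_right_comm, ← Units.val_mul, mul_inv_cancel, Units.val_one, one_mul]) v
            have h4 : (fun h : J => (((μ * ψ.comp J.subtype) h : ℂˣ) : ℂ))
                = fun j : J => ((μ j : ℂˣ) : ℂ) * ((ψ (j : V) : ℂˣ) : ℂ) := by
              funext j
              simp
            rw [h4, h3, mul_comm, hμ]
          rw [h2]
          refine AddSubgroup.subset_closure ⟨J, _, ?_, rfl⟩
          have : Group.IsNilpotent V := hV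
          infer_instance
        | zero =>
          have : (fun v : V => ((ψ v : ℂˣ) : ℂ) * (0 : V → ℂ) v) = 0 := by funext; simp
          rw [this]; exact AddSubgroup.zero_mem _
        | add a b _ _ ha hb =>
          have : (fun v : V => ((ψ v : ℂˣ) : ℂ) * (a + b) v)
              = (fun v => ((ψ v : ℂˣ) : ℂ) * a v) + fun v => ((ψ v : ℂˣ) : ℂ) * b v := by
            funext; simp [mul_add]
          rw [this]; exact AddSubgroup.add_mem _ ha hb
        | neg a _ ha =>
          have : (fun v : V => ((ψ v : ℂˣ) : ℂ) * (-a) v) = -fun v => ((ψ v : ℂˣ) : ℂ) * a v := by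
            funext; simp
          rw [this]; exact AddSubgroup.neg_mem _ ha
      have h5 := ind_pn V (h1 _ h0)
      have h6 : ind V (fun v : V => ((ψ v : ℂˣ) : ℂ) * f v)
          = fun g => ind V (fun h => ((ψ h : ℂˣ) : ℂ)) g * f g := by
        funext g
        exact ind_mul V (fun h => ((ψ h : ℂˣ) : ℂ)) hcl g
      rw [h6] at h5
      exact h5
    | zero =>
      have : (fun g => (0 : G → ℂ) g * f g) = 0 := by funext; simp
      rw [this]; exact AddSubgroup.zero_mem _
    | add a b _ _ ha hb =>
      have : (fun g => (a + b) g * f g) = (fun g => a g * f g) + fun g => b g * f g := by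
        funext; simp [add_mul]
      rw [this]; exact AddSubgroup.add_mem _ ha hb
    | neg a _ ha =>
      have : (fun g => (-a) g * f g) = -fun g => a g * f g := by funext; simp
      rw [this]; exact AddSubgroup.neg_mem _ ha
  have h := key _ one_mem_pn
  simpa using h

/-- **Brauer's theorem over a field with enough roots of unity**: a set of class functions which
contains the functions induced from linear characters of nilpotent subgroups and is closed under
addition contains two elements whose difference is the given character. -/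
theorem brauer_field {k : Type} [Field k] {ζ : k} (hζ : IsPrimitiveRoot ζ (Monoid.exponent G))
    (τ : k →+* ℂ) (T : Set (G → k)) (hadd : ∀ a ∈ T, ∀ b ∈ T, a + b ∈ T)
    (hind : ∀ (U : Subgroup G) (ψ : U →* kˣ), Group.IsNilpotent U →
      ind U (fun u => ((ψ u : kˣ) : k)) ∈ T)
    (f : G → k) (hf : (fun g => τ (f g)) ∈ AddSubgroup.closure (Irr G)) :
    ∃ a ∈ T, ∃ b ∈ T, f + b = a := by
  classical
  have : Fintype G := Fintype.ofFinite G
  have hmap : ∀ (U : Subgroup G) (h : U → k) (g : G),
      τ (ind U h g) = ind U (fun u => τ (h u)) g := by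
    intro U h g
    have : Fintype U := Fintype.ofFinite U
    unfold ind
    rw [map_mul, map_inv₀, map_natCast, finsum_eq_sum_of_fintype, finsum_eq_sum_of_fintype, map_sum]
    congr 1
    refine Finset.sum_congr rfl fun x _ => ?_
    unfold ext
    split_ifs
    · rfl
    · exact map_zero τ
  let r : G → k := ind (⊥ : Subgroup G) (fun u => (((1 : (⊥ : Subgroup G) →* kˣ) u : kˣ) : k))
  have hr : r ∈ T := hind ⊥ 1 inferInstance
  have key : ∀ F ∈ PN G, ∃ a ∈ T, ∃ b ∈ T, ∀ g, F g + τ (b g) = τ (a g) := by
    intro F hF
    unfold PN at hF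
    induction hF using AddSubgroup.closure_induction with
    | mem x hx =>
      obtain ⟨V, ψ, hV, rfl⟩ := hx
      obtain ⟨ψE, hψ⟩ := lift_char hζ τ V ψ
      refine ⟨ind V (fun u => ((ψE u : kˣ) : k)) + r, hadd _ (hind V ψE hV) _ hr, r, hr,
        fun g => ?_⟩
      have h1 : (fun u => τ ((ψE u : kˣ) : k)) = fun u => ((ψ u : ℂˣ) : ℂ) := funext hψ
      have h2 := hmap V (fun u => ((ψE u : kˣ) : k)) g
      rw [h1] at h2
      rw [Pi.add_apply, map_add, h2]
    | zero => exact ⟨r, hr, r, hr, fun g => by simp⟩
    | add x y _ _ hx hy =>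
      obtain ⟨a, ha, b, hb, h1⟩ := hx
      obtain ⟨a', ha', b', hb', h2⟩ := hy
      refine ⟨a + a', hadd _ ha _ ha', b + b', hadd _ hb _ hb', fun g => ?_⟩
      rw [Pi.add_apply, Pi.add_apply, Pi.add_apply, map_add, map_add, ← h1, ← h2]
      ring
    | neg x _ hx =>
      obtain ⟨a, ha, b, hb, h1⟩ := hx
      refine ⟨b, hb, a, ha, fun g => ?_⟩
      rw [Pi.neg_apply, ← h1]
      ring
  obtain ⟨a, ha, b, hb, h1⟩ := key _ (closure_irr_le hf)
  refine ⟨a, ha, b, hb, ?_⟩
  funext g
  apply τ.injective
  rw [Pi.add_apply, map_add]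
  exact h1 g

end Pool.Agent.Helper51K9.RG
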