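import Pool.Agent.Helper8K9.DG.Stm

/-!
# Quotients of critical values of the Artin twists of a motive: definitions

`Motive`, `IsLFunction`, `IsPeriod`, `DeligneConjecture`, `induced` are those of
`Pool.Agent.Helper8K9.DG.Mot`.
-/

set_option autoImplicit false
set_option linter.unusedSectionVars false

namespace Pool.Agent.Helper51K9.RG

open Matrix Polynomial Filter Topology NumberField Pool.Agent.Helper8K9.DG

variable {QA : Type} [Field QA] [CharZero QA] [IsAlgClosed QA] [Algebra.IsAlgebraic ℚ QA]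
  {KK : Type} [Field KK] [IsAlgClosed KK]

/-- `(2 π i) ^ (m r)`, where `r` is half of the rank -/
noncomputable def twoPiI (m : ℤ) (r : ℕ) : ℂ := (2 * Real.pi * Complex.I) ^ (m * r)

section

variable {E : Type} [Field E] {d : ℕ} (M : Motive QA KK E d) {E' : Type} [Field E'] [Algebra E E']
  {n : Type} [Fintype n] [DecidableEq n]

/-- the L-function of `M ⊗ ρ` exists: it is meromorphic on the complex plane, equal to the Euler
product in a right half plane, and has no zeros in a right half plane -/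
def HasL (ι : QA →+* ℂ) (ρ : (QA ≃ₐ[ℚ] QA) →* Matrix n n E') : Prop :=
  ∃ L, IsLFunction M ι ρ L ∧ ∀ τ, ∃ b : ℝ, ∀ s : ℂ, b < s.re → L τ s ≠ 0

/-- **The quotient of the values at `m` and `m'` of the L-function of `M ⊗ ρ` is the one predicted by
Deligne's conjecture**: the L-function of `M ⊗ ρ` has nonzero values at `m` and `m'`, and
`L(m, M ⊗ ρ) / L(m', M ⊗ ρ) = e (2 π i) ^ ((m - m') n^ε) c^ε(M ⊗ ρ) / c^ε'(M ⊗ ρ)` with `e ∈ E'`,
where `ε` and `ε'` are the signs of `(-1) ^ m` and `(-1) ^ m'`. -/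
def RatioAt (ι : QA →+* ℂ) (c : (QA ≃ₐ[ℚ] QA)) (m m' : ℤ) (ρ : (QA ≃ₐ[ℚ] QA) →* Matrix n n E') : Prop :=
  ∀ (L : (E' →+* QA) → ℂ → ℂ) (Ω Ω' : (E' →+* QA) → ℂ), IsLFunction M ι ρ L →
    IsPeriod M ι c ρ ((-1) ^ m) Ω → IsPeriod M ι c ρ ((-1) ^ m') Ω' →
    ∃ e : E', e ≠ 0 ∧ ∀ τ, ∃ a a' : ℂ, a ≠ 0 ∧ a' ≠ 0 ∧
      Tendsto (L τ) (𝓝[≠] (m : ℂ)) (𝓝 a) ∧ Tendsto (L τ) (𝓝[≠] (m' : ℂ)) (𝓝 a') ∧
      a * (twoPiI m' (d * Fintype.card n) * Ω' τ) =
        ι (τ e) * (a' * (twoPiI m (d * Fintype.card n) * Ω τ))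

/-- **The quotient of the values at `m` and `m'`, without periods**: the L-function of `M ⊗ ρ` has
nonzero values at `m` and `m'`, and `L(m, M ⊗ ρ) / L(m', M ⊗ ρ) = e (2 π i) ^ ((m - m') n^ε)` with
`e ∈ E'`. For `m` and `m'` of the same parity this is the prediction of Deligne's conjecture. -/
def PlainRatioAt (ι : QA →+* ℂ) (m m' : ℤ) (ρ : (QA ≃ₐ[ℚ] QA) →* Matrix n n E') : Prop :=
  ∀ L : (E' →+* QA) → ℂ → ℂ, IsLFunction M ι ρ L →
    ∃ e : E', e ≠ 0 ∧ ∀ τ, ∃ a a' : ℂ, a ≠ 0 ∧ a' ≠ 0 ∧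
      Tendsto (L τ) (𝓝[≠] (m : ℂ)) (𝓝 a) ∧ Tendsto (L τ) (𝓝[≠] (m' : ℂ)) (𝓝 a') ∧
      a * twoPiI m' (d * Fintype.card n) = ι (τ e) * (a' * twoPiI m (d * Fintype.card n))

end

open Classical in
/-- The quotients of the values at `m` and `m'` are the ones predicted by Deligne's conjecture for the
abelian twists of the base changes `M_K`, where `K` runs through the subfields of `F` such that the
Galois group of `F` over `K` is nilpotent: the L-function of `M_K ⊗ ψ`, that is of `M ⊗ Ind ψ`, exists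
for the characters `ψ` of this Galois group with values in number fields that contain `E`, and
`RatioAt` holds for `Ind ψ`. -/
def AbelianRatios {E : Type} [Field E] {d : ℕ} (M : Motive QA KK E d) (ι : QA →+* ℂ) (c : (QA ≃ₐ[ℚ] QA)) (m m' : ℤ)
    (F : IntermediateField ℚ QA) [Normal ℚ F] : Prop :=
  ∀ (E' : Type) [Field E'] [NumberField E'] [Algebra E E'] (K : IntermediateField ℚ QA)
    [FiniteDimensional ℚ K], K ≤ F →
    Group.IsNilpotent (K.fixingSubgroup.map (AlgEquiv.restrictNormalHom F)) →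
    ∀ ψ : K.fixingSubgroup →* E'ˣ, (∀ γ : K.fixingSubgroup, (γ : (QA ≃ₐ[ℚ] QA)) ∈ F.fixingSubgroup → ψ γ = 1) →
      HasL M ι (induced K ψ) ∧ RatioAt M ι c m m' (induced K ψ)

open Classical in
/-- The same for `PlainRatioAt`. -/
def PlainAbelianRatios {E : Type} [Field E] {d : ℕ} (M : Motive QA KK E d) (ι : QA →+* ℂ) (m m' : ℤ)
    (F : IntermediateField ℚ QA) [Normal ℚ F] : Prop :=
  ∀ (E' : Type) [Field E'] [NumberField E'] [Algebra E E'] (K : IntermediateField ℚ QA)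
    [FiniteDimensional ℚ K], K ≤ F →
    Group.IsNilpotent (K.fixingSubgroup.map (AlgEquiv.restrictNormalHom F)) →
    ∀ ψ : K.fixingSubgroup →* E'ˣ, (∀ γ : K.fixingSubgroup, (γ : (QA ≃ₐ[ℚ] QA)) ∈ F.fixingSubgroup → ψ γ = 1) →
      HasL M ι (induced K ψ) ∧ PlainRatioAt M ι m m' (induced K ψ)

end Pool.Agent.Helper51K9.RG
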