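import Pool.Agent.Helper51K9.RG.Field

/-!
# Existence of the L-function of a difference
-/

set_option autoImplicit false
set_option linter.unusedSectionVars false

namespace Pool.Agent.Helper51K9.RG

open Matrix Polynomial Filter Topology NumberField Pool.Agent.Helper8K9.DG

variable {QA : Type} [Field QA] [CharZero QA] [IsAlgClosed QA] [Algebra.IsAlgebraic ℚ QA]
  {KK : Type} [Field KK] [IsAlgClosed KK]

theorem reverse_ne {K : Type} [Field K] {p : K[X]} (hp : p.Monic) : p.reverse ≠ 0 := by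
  intro h
  rw [Polynomial.reverse_eq_zero] at h
  exact hp.ne_zero h

section

variable {E : Type} [Field E] {d : ℕ} (M : Motive QA KK E d)
  {E' : Type} [Field E'] [Algebra E E'] {n : Type} [Fintype n] [DecidableEq n]

/-- an embedding over the given one -/
theorem exists_j [Algebra.IsAlgebraic E E'] (p : Nat.Primes) :
    ∃ j : E' →+* KK, j.comp (algebraMap E E') = M.coeff p := by
  let _ : Algebra E KK := (M.coeff p).toAlgebra
  let j : E' →ₐ[E] KK := IsAlgClosed.lift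
  exact ⟨j, RingHom.ext fun x => j.commutes x⟩

/-- local factors of a summand -/
theorem factor_summand [Algebra.IsAlgebraic E E'] {n' : Type} [Fintype n'] [DecidableEq n']
    (ρ : (QA ≃ₐ[ℚ] QA) →* Matrix n n E') (ρ' : (QA ≃ₐ[ℚ] QA) →* Matrix n' n' E') (p : Nat.Primes) {Q₁ Q₂ : E'[X]}
    (h₁ : IsLocalFactor M (dsum ρ ρ') p Q₁) (h₂ : IsLocalFactor M ρ' p Q₂) :
    ∃ Q : E'[X], IsLocalFactor M ρ p Q ∧ Q₁ = Q * Q₂ := by
  have key : ∀ j : E' →+* KK, j.comp (algebraMap E E') = M.coeff p →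
      ∃ T : Module.End KK (fixedBy (twist M ρ p j) (M.inertia p)),
        (∀ v, ((T v : fixedBy (twist M ρ p j) (M.inertia p)) : Fin (2 * d) × n → KK)
          = twist M ρ p j (M.frob p) *ᵥ v) ∧
        Q₁.map j = T.charpoly.reverse * Q₂.map j ∧ Q₂.map j ≠ 0 := by
    intro j hj
    obtain ⟨T, hT, h⟩ := h₁ j hj
    obtain ⟨T', hT', h'⟩ := h₂ j hj
    let e := LsumL.split M ρ ρ' p j (M.inertia p)
    let T₁ : Module.End KK (fixedBy (twist M ρ p j) (M.inertia p)) :=
      (LinearMap.fst _ _ _).comp (e.toLinearMap.comp (T.comp (e.symm.toLinearMap.comp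
        (LinearMap.inl KK _ _))))
    have hT₁ : ∀ v, ((T₁ v : fixedBy (twist M ρ p j) (M.inertia p)) : Fin (2 * d) × n → KK)
        = twist M ρ p j (M.frob p) *ᵥ v := by
      intro v
      funext x
      have h1 := congrFun (hT (e.symm (v, 0))) (x.1, Sum.inl x.2)
      rw [LsumL.act_inl] at h1
      exact h1
    have hTT : T = e.symm.conj (T₁.prodMap T') := by
      ext1 v
      apply Subtype.ext
      rw [hT, LinearEquiv.conj_apply_apply]
      symm
      funext x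
      obtain ⟨i, a | a⟩ := x
      · rw [LsumL.act_inl]
        exact congrFun (hT₁ (e v).1) (i, a)
      · rw [LsumL.act_inr]
        exact congrFun (hT' (e v).2) (i, a)
    refine ⟨T₁, hT₁, ?_, ?_⟩
    · rw [h, hTT, LinearEquiv.charpoly_conj, LinearMap.charpoly_prodMap,
        Polynomial.reverse_mul_of_domain, h']
    · rw [h']
      exact reverse_ne (LinearMap.charpoly_monic _)
  obtain ⟨j₀, hj₀⟩ := exists_j M (E' := E') p
  obtain ⟨T₀, -, h1, h2⟩ := key j₀ hj₀
  have hdvd : Q₂ ∣ Q₁ := by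
    rw [← Polynomial.map_dvd_map' j₀, h1]
    exact Dvd.intro_left _ rfl
  obtain ⟨Q, rfl⟩ := hdvd
  refine ⟨Q, fun j hj => ?_, mul_comm _ _⟩
  obtain ⟨T, hT, h3, h4⟩ := key j hj
  refine ⟨T, hT, ?_⟩
  rw [Polynomial.map_mul, mul_comm] at h3
  exact mul_right_cancel₀ h4 h3

end

/-- elements with one conjugate -/
theorem mem_of_conj {k l K : Type} [Field k] [Field l] [Field K] [IsAlgClosed K] [CharZero k]
    [Algebra k l] [Algebra k K] [Algebra.IsAlgebraic k l] (x : l) (y : K)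
    (h : ∀ j : l →ₐ[k] K, j x = y) : ∃ a : k, algebraMap k l a = x := by
  have hint : IsIntegral k x := Algebra.IsIntegral.isIntegral x
  have h1 : (minpoly k x).rootSet K ⊆ {y} := by
    rw [← Algebra.IsAlgebraic.range_eval_eq_rootSet_minpoly K x]
    rintro _ ⟨j, rfl⟩
    exact h j
  have hsep : (minpoly k x).Separable := (minpoly.irreducible hint).separable
  have h2 : Fintype.card ((minpoly k x).rootSet K) = (minpoly k x).natDegree :=
    Polynomial.card_rootSet_eq_natDegree hsep (IsAlgClosed.splits _)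
  have h3 : Fintype.card ((minpoly k x).rootSet K) ≤ 1 := by
    rw [Fintype.card_le_one_iff]
    intro a b
    apply Subtype.ext
    rw [Set.mem_singleton_iff.1 (h1 a.2), Set.mem_singleton_iff.1 (h1 b.2)]
  have h4 : (minpoly k x).natDegree = 1 :=
    le_antisymm (h2 ▸ h3) (minpoly.natDegree_pos hint)
  exact minpoly.mem_range_of_degree_eq_one k x
    ((Polynomial.degree_eq_iff_natDegree_eq (minpoly.ne_zero hint)).2 h4)

section

variable {E : Type} [Field E] {d : ℕ} (M : Motive QA KK E d) (ι : QA →+* ℂ)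
  {E' : Type} [Field E'] [NumberField E'] [Algebra E E'] [Algebra.IsAlgebraic E E']
  (E'' : Type) [Field E''] [NumberField E''] [Algebra E E''] [Algebra E' E'']
  [IsScalarTower E E' E''] {n : Type} [Fintype n] [DecidableEq n] (ρ : (QA ≃ₐ[ℚ] QA) →* Matrix n n E')

/-- local factors have coefficients in the smaller field -/
theorem factor_desc (p : Nat.Primes) {Q : E''[X]} (h : IsLocalFactor M (baseRep E'' ρ) p Q) :
    ∃ Q₀ : E'[X], Q₀.map (algebraMap E' E'') = Q ∧ IsLocalFactor M ρ p Q₀ := by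
  have halg : Algebra.IsAlgebraic E' E'' := by
    have : FiniteDimensional E' E'' := Module.Finite.of_restrictScalars_finite ℚ E' E''
    exact Algebra.IsAlgebraic.of_finite E' E''
  have hext : ∀ j₀ : E' →+* KK, ∃ j : E'' →+* KK, j.comp (algebraMap E' E'') = j₀ := by
    intro j₀
    let _ : Algebra E' KK := j₀.toAlgebra
    let j : E'' →ₐ[E'] KK := IsAlgClosed.lift
    exact ⟨j, RingHom.ext fun x => j.commutes x⟩
  have hj'' : ∀ (j₀ : E' →+* KK) (j : E'' →+* KK), j₀.comp (algebraMap E E') = M.coeff p →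
      j.comp (algebraMap E' E'') = j₀ → j.comp (algebraMap E E'') = M.coeff p := by
    intro j₀ j h1 h2
    rw [IsScalarTower.algebraMap_eq E E' E'', ← RingHom.comp_assoc, h2, h1]
  have hagree : ∀ (j j' : E'' →+* KK), j.comp (algebraMap E E'') = M.coeff p →
      j.comp (algebraMap E' E'') = j'.comp (algebraMap E' E'') → Q.map j = Q.map j' := by
    intro j j' h1 h2
    have h1' : j'.comp (algebraMap E E'') = M.coeff p := by
      rw [IsScalarTower.algebraMap_eq E E' E'', ← RingHom.comp_assoc, ← h2, RingHom.comp_assoc,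
        ← IsScalarTower.algebraMap_eq E E' E'', h1]
    obtain ⟨T, hT, k1⟩ := h j h1
    obtain ⟨T', hT', k2⟩ := h j' h1'
    have h3 : twist M (baseRep E'' ρ) p j = twist M (baseRep E'' ρ) p j' := by
      funext σ
      have h4 : ∀ i : E'' →+* KK, ((baseRep E'' ρ σ).map i) =
          (ρ σ).map (i.comp (algebraMap E' E'')) := by
        intro i
        ext a b
        rfl
      unfold twist
      rw [h4, h4, h2]
    rw [k1, k2]
    have key : ∀ (A B : (QA ≃ₐ[ℚ] QA) → Matrix (Fin (2 * d) × n) (Fin (2 * d) × n) KK), A = B →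
        ∀ (T : Module.End KK (fixedBy A (M.inertia p)))
          (T' : Module.End KK (fixedBy B (M.inertia p))),
        (∀ v, ((T v : fixedBy A (M.inertia p)) : Fin (2 * d) × n → KK) = A (M.frob p) *ᵥ v) →
        (∀ v, ((T' v : fixedBy B (M.inertia p)) : Fin (2 * d) × n → KK) = B (M.frob p) *ᵥ v) →
        T.charpoly.reverse = T'.charpoly.reverse := by
      rintro A _ rfl T T' h5 h6
      have : T = T' := by
        ext1 v
        apply Subtype.ext
        rw [h5, h6]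
      rw [this]
    exact key _ _ h3 T T' hT hT'
  obtain ⟨j₀, hj₀⟩ := exists_j M (E' := E') p
  obtain ⟨j₁, hj₁⟩ := hext j₀
  have hcoef : ∀ i, ∃ a : E', algebraMap E' E'' a = Q.coeff i := by
    intro i
    let _ : Algebra E' KK := j₀.toAlgebra
    refine mem_of_conj (K := KK) (Q.coeff i) (j₁ (Q.coeff i)) fun j => ?_
    have h1 : (j : E'' →+* KK).comp (algebraMap E' E'') = j₀ :=
      RingHom.ext fun x => j.commutes x
    have h2 := hagree (j : E'' →+* KK) j₁ (hj'' j₀ _ hj₀ h1) (by rw [h1, hj₁])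
    have h3 := congrArg (fun P => Polynomial.coeff P i) h2
    simp only [Polynomial.coeff_map] at h3
    exact h3
  have hQ : Q ∈ Polynomial.lifts (algebraMap E' E'') := by
    rw [Polynomial.lifts_iff_coeff_lifts]
    intro i
    exact hcoef i
  obtain ⟨Q₀, hQ₀⟩ := (Polynomial.mem_lifts Q).1 hQ
  refine ⟨Q₀, hQ₀, fun j hj => ?_⟩
  obtain ⟨j', hj'⟩ := hext j
  obtain ⟨T, hT, h1⟩ := h j' (hj'' j j' hj hj')
  subst hj'
  rw [← hQ₀, Polynomial.map_map] at h1
  exact ⟨T, hT, h1⟩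

theorem HasL.dsum {k : Type} [Field k] [Algebra E k] {a a' : Type} [Fintype a] [DecidableEq a]
    [Fintype a'] [DecidableEq a'] {r : (QA ≃ₐ[ℚ] QA) →* Matrix a a k} {r' : (QA ≃ₐ[ℚ] QA) →* Matrix a' a' k}
    (h : HasL M ι r) (h' : HasL M ι r') : HasL M ι (Helper8K9.DG.dsum r r') := by
  obtain ⟨L, hL, h1⟩ := h
  obtain ⟨L', hL', h1'⟩ := h'
  refine ⟨_, isL_mul lsum M ι r r' hL hL', fun τ => ?_⟩
  obtain ⟨b, hb⟩ := h1 τ
  obtain ⟨b', hb'⟩ := h1' τ
  exact ⟨max b b', fun s hs => mul_ne_zero (hb s (lt_of_le_of_lt (le_max_left _ _) hs))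
    (hb' s (lt_of_le_of_lt (le_max_right _ _) hs))⟩

/-- the L-function of a difference -/
theorem hasL_sub [Algebra.IsAlgebraic E E''] {n₁ n₂ : Type} [Fintype n₁] [DecidableEq n₁]
    [Fintype n₂] [DecidableEq n₂] {ρ₁ : (QA ≃ₐ[ℚ] QA) →* Matrix n₁ n₁ E''} {ρ₂ : (QA ≃ₐ[ℚ] QA) →* Matrix n₂ n₂ E''}
    (h₁ : HasL M ι ρ₁) (h₂ : HasL M ι ρ₂)
    (A : Matrix (n ⊕ n₂) n₁ E'') (B : Matrix n₁ (n ⊕ n₂) E'') (hAB : A * B = 1) (hBA : B * A = 1)
    (hA : ∀ γ, Helper8K9.DG.dsum (baseRep E'' ρ) ρ₂ γ * A = A * ρ₁ γ) : HasL M ι ρ := by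
  obtain ⟨L₁, ⟨Q₁, hQ₁, hP₁⟩, hz₁⟩ := h₁
  obtain ⟨L₂, ⟨Q₂, hQ₂, hP₂⟩, hz₂⟩ := h₂
  have hQ : ∀ p, ∃ Q₀ : E'[X], IsLocalFactor M ρ p Q₀ ∧
      Q₁ p = Q₀.map (algebraMap E' E'') * Q₂ p := by
    intro p
    have h1 := liso E d M E'' (n ⊕ n₂) n₁ _ ρ₁ A B hAB hBA hA p _ (hQ₁ p)
    obtain ⟨Q, h2, h3⟩ := factor_summand M _ _ p h1 (hQ₂ p)
    obtain ⟨Q₀, h4, h5⟩ := factor_desc M E'' ρ p h2
    exact ⟨Q₀, h5, by rw [h4, h3]⟩
  choose Q₀ hQ₀ hQQ using hQ
  choose ext hext using Per.exists_lift (QA := QA) E' E''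
  refine ⟨fun τ s => L₁ (ext τ) s / L₂ (ext τ) s, ⟨Q₀, hQ₀, fun τ => ?_⟩, fun τ => ?_⟩
  · obtain ⟨m1, b, hb⟩ := hP₁ (ext τ)
    obtain ⟨m2, b', hb'⟩ := hP₂ (ext τ)
    obtain ⟨z, hz⟩ := hz₂ (ext τ)
    refine ⟨m1.div m2, max b (max b' z), fun s hs => ?_⟩
    have hs1 : b < s.re := lt_of_le_of_lt (le_max_left _ _) hs
    have hs2 : b' < s.re := lt_of_le_of_lt ((le_max_left _ _).trans (le_max_right _ _)) hs
    have hs3 : z < s.re := lt_of_le_of_lt ((le_max_right _ _).trans (le_max_right _ _)) hs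
    have k1 := hb s hs1
    have k2 := hb' s hs2
    have k3 := hz s hs3
    have k4 : ∀ p : Nat.Primes, ((Q₂ p).map (ι.comp (ext τ))).eval (((p : ℕ) : ℂ) ^ (-s)) ≠ 0 := by
      intro p h0
      apply k3
      refine k2.unique ?_
      have : HasProd (fun p : Nat.Primes =>
          (((Q₂ p).map (ι.comp (ext τ))).eval (((p : ℕ) : ℂ) ^ (-s)))⁻¹) 0 := by
        refine hasProd_zero_of_exists_eq_zero ⟨p, ?_⟩
        rw [h0, _root_.inv_zero]
      exact this
    have k5 : Tendsto (fun F : Finset Nat.Primes => (∏ p ∈ F,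
        (((Q₁ p).map (ι.comp (ext τ))).eval (((p : ℕ) : ℂ) ^ (-s)))⁻¹) /
        ∏ p ∈ F, (((Q₂ p).map (ι.comp (ext τ))).eval (((p : ℕ) : ℂ) ^ (-s)))⁻¹) atTop
        (𝓝 (L₁ (ext τ) s / L₂ (ext τ) s)) := Tendsto.div k1 k2 k3
    refine k5.congr fun F => ?_
    rw [← Finset.prod_div_distrib]
    refine Finset.prod_congr rfl fun p _ => ?_
    have h6 : (Q₁ p).map (ι.comp (ext τ)) = (Q₀ p).map (ι.comp τ) * (Q₂ p).map (ι.comp (ext τ)) := by
      rw [hQQ, Polynomial.map_mul, Polynomial.map_map]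
      congr 2
      rw [RingHom.comp_assoc, hext]
    rw [h6, Polynomial.eval_mul, mul_inv, div_inv_eq_mul, mul_assoc, inv_mul_cancel₀ (k4 p), mul_one]
  · obtain ⟨b, hb⟩ := hz₁ (ext τ)
    obtain ⟨b', hb'⟩ := hz₂ (ext τ)
    exact ⟨max b b', fun s hs => div_ne_zero (hb s (lt_of_le_of_lt (le_max_left _ _) hs))
      (hb' s (lt_of_le_of_lt (le_max_right _ _) hs))⟩

end

end Pool.Agent.Helper51K9.RG
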