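import Pool.Agent.Helper51K9.RG.Good
import Pool.Agent.Helper8K9.DG.Desc

/-!
# Extension of the coefficient field
-/

set_option autoImplicit false
set_option linter.unusedSectionVars false

namespace Pool.Agent.Helper51K9.RG

open Matrix Polynomial Filter Topology NumberField Pool.Agent.Helper8K9.DG

variable {QA : Type} [Field QA] [CharZero QA] [IsAlgClosed QA] [Algebra.IsAlgebraic ℚ QA]
  {KK : Type} [Field KK] [IsAlgClosed KK]

/-- number fields with roots of unity -/
theorem exists_field (E : Type) [Field E] (E' : Type) [Field E'] [NumberField E'] [Algebra E E']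
    (N : ℕ) [NeZero N] : ∃ (E'' : Type) (_ : Field E'') (_ : NumberField E'') (_ : Algebra E E'')
      (_ : Algebra E' E'') (_ : IsScalarTower E E' E'') (ζ : E''), IsPrimitiveRoot ζ N := by
  have h1 : NumberField (CyclotomicField N E') := IsCyclotomicExtension.numberField {N} E' _
  exact ⟨CyclotomicField N E', inferInstance, h1, inferInstance, inferInstance, inferInstance, _,
    IsCyclotomicExtension.zeta_spec N E' _⟩

section

variable {E : Type} [Field E] {d : ℕ} (M : Motive QA KK E d) (ι : QA →+* ℂ) (c : (QA ≃ₐ[ℚ] QA)) (m m' : ℤ)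
  {E' : Type} [Field E'] [NumberField E'] [Algebra E E']
  (E'' : Type) [Field E''] [NumberField E''] [Algebra E E''] [Algebra E' E'']
  [IsScalarTower E E' E''] {n : Type} [Fintype n] [DecidableEq n] (ρ : (QA ≃ₐ[ℚ] QA) →* Matrix n n E')

/-- the representation over the larger field -/
noncomputable def baseRep : (QA ≃ₐ[ℚ] QA) →* Matrix n n E'' := (algebraMap E' E'').mapMatrix.toMonoidHom.comp ρ

theorem isL_base {L : (E' →+* QA) → ℂ → ℂ} (hL : IsLFunction M ι ρ L) :
    IsLFunction M ι (baseRep E'' ρ) (fun τ => L (τ.comp (algebraMap E' E''))) := by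
  obtain ⟨Q, hQ, hE⟩ := hL
  refine ⟨fun p => (Q p).map (algebraMap E' E''), fun p j hj => ?_, fun τ => ?_⟩
  · have h1 : (j.comp (algebraMap E' E'')).comp (algebraMap E E') = M.coeff p := by
      rw [RingHom.comp_assoc, ← IsScalarTower.algebraMap_eq E E' E'', hj]
    obtain ⟨T, hT, hc⟩ := hQ p (j.comp (algebraMap E' E'')) h1
    exact ⟨T, hT, by rw [Polynomial.map_map]; exact hc⟩
  · obtain ⟨h1, b, h2⟩ := hE (τ.comp (algebraMap E' E''))
    refine ⟨h1, b, fun s hs => ?_⟩
    have h3 := h2 s hs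
    have h4 : ∀ p : Nat.Primes, ((Q p).map (algebraMap E' E'')).map (ι.comp τ) =
        (Q p).map (ι.comp (τ.comp (algebraMap E' E''))) := by
      intro p
      rw [Polynomial.map_map]
      rfl
    simp only [h4]
    exact h3

theorem isPeriod_base {ε : ℤˣ} {Ω : (E' →+* QA) → ℂ} (hΩ : IsPeriod M ι c ρ ε Ω) :
    IsPeriod M ι c (baseRep E'' ρ) ε (fun τ => Ω (τ.comp (algebraMap E' E''))) := by
  have hsc : ∀ j : E'' →+* QA,
      (j.comp (algebraMap E' E'')).comp (algebraMap E E') = j.comp (algebraMap E E'') := by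
    intro j
    rw [IsScalarTower.algebraMap_eq E E' E'', ← RingHom.comp_assoc]
  obtain ⟨S, s, X, hS, hX, hP⟩ := hΩ
  refine ⟨S.map (algebraMap E' E''), s, fun τ => X (τ.comp (algebraMap E' E'')), ⟨?_, ?_⟩,
    ⟨fun τ => hX.1 _, ?_⟩, ?_⟩
  · have h1 : (S.map (algebraMap E' E'')).det = algebraMap E' E'' S.det := by
      rw [← RingHom.mapMatrix_apply, ← RingHom.map_det]
    rw [h1]
    exact hS.1.map _
  · have h1 := congrArg (fun A : Matrix n n E' => A.map (algebraMap E' E'')) hS.2
    simp only [Matrix.map_mul] at h1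
    have h2 : (diagonal fun b => (((s b : ℤˣ) : ℤ) : E')).map (algebraMap E' E'') =
        diagonal fun b => (((s b : ℤˣ) : ℤ) : E'') := by
      rw [Matrix.diagonal_map (map_zero _)]
      congr 1
      ext b
      exact map_intCast (algebraMap E' E'') _
    rw [h2] at h1
    exact h1
  · intro γ τ
    exact hX.2 γ (τ.comp (algebraMap E' E''))
  · intro τ
    change Ω (τ.comp (algebraMap E' E'')) = _
    rw [hP (τ.comp (algebraMap E' E'')), ← hsc τ]
    rfl

/-- descent of the coefficient field -/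
theorem ratio_desc (h : RatioAt M ι c m m' (baseRep E'' ρ)) : RatioAt M ι c m m' ρ := by
  intro L Ω Ω' hL hΩ hΩ'
  obtain ⟨e'', he0, he''⟩ := h _ _ _ (isL_base M ι E'' ρ hL) (isPeriod_base M ι c E'' ρ hΩ)
    (isPeriod_base M ι c E'' ρ hΩ')
  have hΩne : ∀ τ, Ω τ ≠ 0 := pne E d M ι c E' n ρ _ Ω hΩ
  have huniq : ∀ τ σ : E'' →+* QA, τ.comp (algebraMap E' E'') = σ.comp (algebraMap E' E'') →
      τ e'' = σ e'' := by
    intro τ σ hτσ
    obtain ⟨a, a', h1, h2, h3, h4, h5⟩ := he'' τ
    obtain ⟨b, b', k1, k2, k3, k4, k5⟩ := he'' σ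
    simp only [hτσ] at h3 h4 h5
    have e1 := tendsto_nhds_unique h3 k3
    have e2 := tendsto_nhds_unique h4 k4
    subst e1
    subst e2
    rw [h5] at k5
    have hne : a' * (twoPiI m (d * Fintype.card n) * Ω (σ.comp (algebraMap E' E''))) ≠ 0 :=
      mul_ne_zero h2 (mul_ne_zero (twoPiI_ne _ _) (hΩne _))
    exact ι.injective (mul_right_cancel₀ hne k5)
  choose ext hext using Per.exists_lift (QA := QA) E' E''
  obtain ⟨e, he⟩ := Per.fixed_desc (fun τ => ext τ e'') (by
    intro γ τ
    have h1 : (ext (cmp γ τ)).comp (algebraMap E' E'') =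
        (cmp γ (ext τ)).comp (algebraMap E' E'') := by
      change (ext (cmp γ τ)).comp (algebraMap E' E'') = cmp γ ((ext τ).comp (algebraMap E' E''))
      rw [hext, hext]
    exact huniq _ _ h1)
  refine ⟨e, ?_, fun τ => ?_⟩
  · rintro rfl
    obtain ⟨τ₀⟩ := Per.exists_emb (QA := QA) E'
    have h1 := he τ₀
    rw [map_zero, map_eq_zero] at h1
    exact he0 h1
  · obtain ⟨a, a', h1, h2, h3, h4, h5⟩ := he'' (ext τ)
    simp only [hext] at h3 h4 h5
    refine ⟨a, a', h1, h2, h3, h4, ?_⟩
    rw [← he τ]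
    exact h5

end

end Pool.Agent.Helper51K9.RG
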