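import Pool.Agent.Helper51K9.RG.Defs
import Pool.Agent.Helper8K9.DG.Lsum
import Pool.Agent.Helper8K9.DG.Liso
import Pool.Agent.Helper8K9.DG.Luni
import Pool.Agent.Helper8K9.DG.Ldiv
import Pool.Agent.Helper8K9.DG.Psum
import Pool.Agent.Helper8K9.DG.Pex
import Pool.Agent.Helper8K9.DG.Pne
import Pool.Agent.Helper8K9.DG.Puni

/-!
# Direct sums and differences of good representations
-/

set_option autoImplicit false
set_option linter.unusedSectionVars false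

namespace Pool.Agent.Helper51K9.RG

open Matrix Polynomial Filter Topology NumberField Pool.Agent.Helper8K9.DG

variable {QA : Type} [Field QA] [CharZero QA] [IsAlgClosed QA] [Algebra.IsAlgebraic ℚ QA]
  {KK : Type} [Field KK] [IsAlgClosed KK]

theorem two_pi_I_ne : (2 * Real.pi * Complex.I : ℂ) ≠ 0 := by
  have hpi : (Real.pi : ℂ) ≠ 0 := by exact_mod_cast Real.pi_ne_zero
  exact mul_ne_zero (mul_ne_zero two_ne_zero hpi) Complex.I_ne_zero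

theorem twoPiI_ne (m : ℤ) (r : ℕ) : twoPiI m r ≠ 0 := zpow_ne_zero _ two_pi_I_ne

theorem twoPiI_add (m : ℤ) (r s : ℕ) : twoPiI m (r + s) = twoPiI m r * twoPiI m s := by
  unfold twoPiI
  rw [← zpow_add₀ two_pi_I_ne]
  congr 1
  push_cast
  ring

section

variable {E : Type} [Field E] {d : ℕ} (M : Motive QA KK E d) (ι : QA →+* ℂ) (c : (QA ≃ₐ[ℚ] QA)) (m m' : ℤ)

/-- the representation has the predicted ratio -/
def GoodRep {E' : Type} [Field E'] [Algebra E E'] {n : Type} [Fintype n] [DecidableEq n]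
    (ρ : (QA ≃ₐ[ℚ] QA) →* Matrix n n E') : Prop :=
  ∃ (a a' Ω Ω' : (E' →+* QA) → ℂ) (e : E'), HasValue M ι m ρ a ∧ HasValue M ι m' ρ a' ∧
    IsPeriod M ι c ρ ((-1) ^ m) Ω ∧ IsPeriod M ι c ρ ((-1) ^ m') Ω' ∧ e ≠ 0 ∧
    ∀ τ, a τ * (twoPiI m' (d * Fintype.card n) * Ω' τ) =
      ι (τ e) * (a' τ * (twoPiI m (d * Fintype.card n) * Ω τ))

variable {E' : Type} [Field E'] [NumberField E'] [Algebra E E'] {n : Type} [Fintype n]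
  [DecidableEq n]

theorem GoodRep.dsum {n' : Type} [Fintype n'] [DecidableEq n'] {ρ : (QA ≃ₐ[ℚ] QA) →* Matrix n n E'}
    {ρ' : (QA ≃ₐ[ℚ] QA) →* Matrix n' n' E'} (h : GoodRep M ι c m m' ρ) (h' : GoodRep M ι c m m' ρ') :
    GoodRep M ι c m m' (Helper8K9.DG.dsum ρ ρ') := by
  obtain ⟨a, a', Ω, Ω', e, h1, h2, h3, h4, h5, h6⟩ := h
  obtain ⟨b, b', Ψ, Ψ', f, k1, k2, k3, k4, k5, k6⟩ := h'
  refine ⟨fun τ => a τ * b τ, fun τ => a' τ * b' τ, fun τ => Ω τ * Ψ τ, fun τ => Ω' τ * Ψ' τ,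
    e * f, lmul lsum E d M ι m E' n n' ρ ρ' a b h1 k1, lmul lsum E d M ι m' E' n n' ρ ρ' a' b' h2 k2,
    psum E d M ι c E' n n' ρ ρ' _ _ _ h3 k3, psum E d M ι c E' n n' ρ ρ' _ _ _ h4 k4,
    mul_ne_zero h5 k5, fun τ => ?_⟩
  rw [Fintype.card_sum, mul_add, twoPiI_add, twoPiI_add, map_mul, map_mul]
  linear_combination (b τ * (twoPiI m' (d * Fintype.card n') * Ψ' τ)) * h6 τ +
    (ι (τ e) * (a' τ * (twoPiI m (d * Fintype.card n) * Ω τ))) * k6 τ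

/-- the difference of two good representations -/
theorem ratio_sub [Algebra.IsAlgebraic E E'] {n₁ n₂ : Type} [Fintype n₁] [DecidableEq n₁] [Fintype n₂] [DecidableEq n₂]
    {ρ : (QA ≃ₐ[ℚ] QA) →* Matrix n n E'} {ρ₁ : (QA ≃ₐ[ℚ] QA) →* Matrix n₁ n₁ E'} {ρ₂ : (QA ≃ₐ[ℚ] QA) →* Matrix n₂ n₂ E'}
    (h₁ : GoodRep M ι c m m' ρ₁) (h₂ : GoodRep M ι c m m' ρ₂)
    (A : Matrix (n ⊕ n₂) n₁ E') (B : Matrix n₁ (n ⊕ n₂) E') (hAB : A * B = 1) (hBA : B * A = 1)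
    (hA : ∀ γ, Helper8K9.DG.dsum ρ ρ₂ γ * A = A * ρ₁ γ) (hcard : Fintype.card n + Fintype.card n₂ = Fintype.card n₁) :
    RatioAt M ι c m m' ρ := by
  intro L Ω Ω' hL hΩ hΩ'
  obtain ⟨a, a', Φ, Φ', e, h1, h2, h3, h4, h5, h6⟩ := h₁
  obtain ⟨b, b', Ψ, Ψ', f, k1, k2, k3, k4, k5, k6⟩ := h₂
  have l1 := ldiv lsum liso luni E d M ι m E' n n₁ n₂ ρ ρ₁ ρ₂ A B hAB hBA hA a b h1 k1 L hL
  have l2 := ldiv lsum liso luni E d M ι m' E' n n₁ n₂ ρ ρ₁ ρ₂ A B hAB hBA hA a' b' h2 k2 L hL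
  have p1 := piso E d M ι c E' (n ⊕ n₂) n₁ (Helper8K9.DG.dsum ρ ρ₂) ρ₁ A B hAB hBA hA _ Φ h3
  have p2 := piso E d M ι c E' (n ⊕ n₂) n₁ (Helper8K9.DG.dsum ρ ρ₂) ρ₁ A B hAB hBA hA _ Φ' h4
  obtain ⟨u, hu, hu1⟩ := puni E d M ι c E' (n ⊕ n₂) (Helper8K9.DG.dsum ρ ρ₂) _ _ _
    (psum E d M ι c E' n n₂ ρ ρ₂ _ _ _ hΩ k3) p1
  obtain ⟨v, hv, hv1⟩ := puni E d M ι c E' (n ⊕ n₂) (Helper8K9.DG.dsum ρ ρ₂) _ _ _
    (psum E d M ι c E' n n₂ ρ ρ₂ _ _ _ hΩ' k4) p2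
  obtain ⟨L₁, -, ha⟩ := h1
  obtain ⟨L₁', -, ha'⟩ := h2
  obtain ⟨L₂, -, hb⟩ := k1
  obtain ⟨L₂', -, hb'⟩ := k2
  have hΨ : ∀ τ, Ψ τ ≠ 0 := pne E d M ι c E' n₂ ρ₂ _ Ψ k3
  have hΨ' : ∀ τ, Ψ' τ ≠ 0 := pne E d M ι c E' n₂ ρ₂ _ Ψ' k4
  refine ⟨v * e / (u * f), div_ne_zero (mul_ne_zero hv h5) (mul_ne_zero hu k5), fun τ =>
    ⟨a τ / b τ, a' τ / b' τ, div_ne_zero (ha τ).1 (hb τ).1, div_ne_zero (ha' τ).1 (hb' τ).1,
      l1 τ, l2 τ, ?_⟩⟩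
  have hτ : ∀ x : E', x ≠ 0 → ι (τ x) ≠ 0 := fun x hx =>
    (map_ne_zero ι).2 ((map_ne_zero τ).2 hx)
  have e1 := hu1 τ
  have e2 := hv1 τ
  have e3 := h6 τ
  have e4 := k6 τ
  rw [← hcard, mul_add, twoPiI_add, twoPiI_add] at e3
  simp only [map_div₀, map_mul]
  have n1 := (hb τ).1
  have n2 := (hb' τ).1
  have n3 := hτ u hu
  have n4 := hτ f k5
  have n5 := hΨ τ
  have n6 := hΨ' τ
  have n7 := twoPiI_ne m (d * Fintype.card n₂)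
  have n8 := twoPiI_ne m' (d * Fintype.card n₂)
  generalize twoPiI m (d * Fintype.card n₂) = q at *
  generalize twoPiI m' (d * Fintype.card n₂) = q' at *
  generalize twoPiI m (d * Fintype.card n) = t at *
  generalize twoPiI m' (d * Fintype.card n) = t' at *
  have e1' : Ω τ * Ψ τ = ι (τ u) * Φ τ := e1
  have e2' : Ω' τ * Ψ' τ = ι (τ v) * Φ' τ := e2
  have hΩe : Ω τ = ι (τ u) * Φ τ / Ψ τ := by rw [← e1']; field_simp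
  have hΩe' : Ω' τ = ι (τ v) * Φ' τ / Ψ' τ := by rw [← e2']; field_simp
  rw [hΩe, hΩe']
  have key : a τ * t' * Φ' τ * (ι (τ f) * b' τ * Ψ τ) =
      ι (τ e) * a' τ * t * Φ τ * (b τ * Ψ' τ) := by
    apply mul_right_cancel₀ (b := q') n8
    linear_combination (ι (τ f) * b' τ * Ψ τ) * e3 - (ι (τ e) * a' τ * t * Φ τ) * e4
  field_simp
  linear_combination ι (τ v) * key

end

end Pool.Agent.Helper51K9.RG
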