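import Pool.Agent.Helper51K9.RG.Exl
import Pool.Agent.Helper51K9.RG.Brauer
import Pool.Agent.Helper8K9.DG.Chr
import Pool.Agent.Helper8K9.DG.Iso
import Pool.Agent.Helper8K9.DG.Cor

/-!
# The ratio for all Artin representations
-/

set_option autoImplicit false
set_option linter.unusedSectionVars false

namespace Pool.Agent.Helper51K9.RG

open Matrix Polynomial Filter Topology NumberField Pool.Agent.Helper8K9.DG Pool.Agent.R389
  Pool.Agent.H541R3.ART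

variable {QA : Type} [Field QA] [CharZero QA] [IsAlgClosed QA] [Algebra.IsAlgebraic ℚ QA]
  {KK : Type} [Field KK] [IsAlgClosed KK]

theorem mem_fix_iff (F : IntermediateField ℚ QA) [Normal ℚ F] (γ : (QA ≃ₐ[ℚ] QA)) :
    γ ∈ F.fixingSubgroup ↔ AlgEquiv.restrictNormalHom F γ = 1 := by
  rw [IntermediateField.mem_fixingSubgroup_iff]
  constructor
  · intro h
    ext x
    have h1 := AlgEquiv.restrictNormal_commutes γ F x
    change algebraMap F QA (AlgEquiv.restrictNormalHom F γ x) = γ (algebraMap F QA x) at h1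
    have h2 : γ (algebraMap F QA x) = algebraMap F QA x := h x x.2
    rw [h2] at h1
    exact h1
  · intro h x hx
    have h1 := AlgEquiv.restrictNormal_commutes γ F ⟨x, hx⟩
    change algebraMap F QA (AlgEquiv.restrictNormalHom F γ ⟨x, hx⟩) = γ (algebraMap F QA ⟨x, hx⟩) at h1
    rw [h] at h1
    exact h1.symm

theorem conj_mem (F : IntermediateField ℚ QA) [Normal ℚ F] {γ : (QA ≃ₐ[ℚ] QA)} (h : γ ∈ F.fixingSubgroup)
    (δ : (QA ≃ₐ[ℚ] QA)) : δ⁻¹ * γ * δ ∈ F.fixingSubgroup := by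
  rw [mem_fix_iff] at h ⊢
  rw [map_mul, map_mul, h, mul_one, ← map_mul, inv_mul_cancel, map_one]

open Classical in
/-- the induced representation is trivial on the Galois group of `F` -/
theorem induced_trivial {E' : Type} [Field E'] (F K : IntermediateField ℚ QA) [Normal ℚ F]
    [FiniteDimensional ℚ K] (hKF : K ≤ F) (ψ : K.fixingSubgroup →* E'ˣ)
    (hψ : ∀ γ : K.fixingSubgroup, (γ : (QA ≃ₐ[ℚ] QA)) ∈ F.fixingSubgroup → ψ γ = 1) (γ : (QA ≃ₐ[ℚ] QA))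
    (hγ : γ ∈ F.fixingSubgroup) : induced K ψ γ = 1 := by
  classical
  have hle : F.fixingSubgroup ≤ K.fixingSubgroup := IntermediateField.fixingSubgroup_antitone hKF
  have h0 : ∀ τ : K →ₐ[ℚ] QA, (extend K τ)⁻¹ * γ * extend K τ ∈ F.fixingSubgroup :=
    fun τ => conj_mem F hγ _
  change inducedMatrix K ψ γ = _
  ext τ τ'
  rw [inducedMatrix, Matrix.of_apply]
  by_cases h : τ = τ'
  · subst h
    rw [Matrix.one_apply_eq, dif_pos (hle (h0 τ)), hψ _ (h0 τ), Units.val_one]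
  · rw [Matrix.one_apply_ne h, dif_neg]
    intro h1
    apply h
    have h2 : (extend K τ)⁻¹ * 1 * extend K τ' ∈ K.fixingSubgroup := by
      have h3 := K.fixingSubgroup.mul_mem (K.fixingSubgroup.inv_mem (hle (h0 τ))) h1
      convert h3 using 1
      group
    rw [mem_fixing] at h2
    exact (AlgHom.ext fun x => (h2 x).symm)

theorem trace_dsum {E' : Type} [Field E'] {n n' : Type} [Fintype n] [DecidableEq n] [Fintype n']
    [DecidableEq n'] (ρ : (QA ≃ₐ[ℚ] QA) →* Matrix n n E') (ρ' : (QA ≃ₐ[ℚ] QA) →* Matrix n' n' E') (γ : (QA ≃ₐ[ℚ] QA)) :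
    (dsum ρ ρ' γ).trace = (ρ γ).trace + (ρ' γ).trace := by
  change (fromBlocks (ρ γ) 0 0 (ρ' γ)).trace = _
  rw [Matrix.trace, Fintype.sum_sum_type]
  rfl

/-- a representation of the quotient -/
theorem exists_quotient {E' : Type} [Field E'] {n : Type} [Fintype n] [DecidableEq n]
    {G : Type} [Group G] {π : (QA ≃ₐ[ℚ] QA) →* G} (hπ : Function.Surjective π) (ρ : (QA ≃ₐ[ℚ] QA) →* Matrix n n E')
    (h : ∀ γ, π γ = 1 → ρ γ = 1) : ∃ r : Representation E' G (n → E'),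
      ∀ γ, r.character (π γ) = (ρ γ).trace := by
  have h1 : ∀ γ δ, π γ = π δ → ρ γ = ρ δ := by
    intro γ δ hγδ
    have h2 : ρ (δ⁻¹ * γ) = 1 := h _ (by rw [map_mul, map_inv, hγδ, inv_mul_cancel])
    have h3 : ρ γ = ρ δ * ρ (δ⁻¹ * γ) := by rw [← map_mul]; congr 1; group
    rw [h3, h2, mul_one]
  choose s hs using hπ
  let r : Representation E' G (n → E') :=
    { toFun := fun g => Matrix.toLin' (ρ (s g))
      map_one' := by
        rw [h1 (s 1) 1 (by rw [hs, map_one]), map_one, Matrix.toLin'_one]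
        rfl
      map_mul' := fun a b => by
        rw [h1 (s (a * b)) (s a * s b) (by rw [hs, map_mul, hs, hs]), map_mul, Matrix.toLin'_mul]
        rfl }
  refine ⟨r, fun γ => ?_⟩
  change LinearMap.trace E' _ (Matrix.toLin' (ρ (s (π γ)))) = _
  rw [Matrix.trace_toLin'_eq, h1 (s (π γ)) γ (hs _)]

section

variable {E : Type} [Field E] [NumberField E] {d : ℕ} (M : Motive QA KK E d) (ι : QA →+* ℂ) (c : (QA ≃ₐ[ℚ] QA))
  (m m' : ℤ)

/-- the decomposition -/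
theorem decompose (hc : c * c = 1) (F : IntermediateField ℚ QA) [Normal ℚ F]
    [FiniteDimensional ℚ F] (h : AbelianRatios M ι c m m' F) {E' : Type} [Field E'] [NumberField E']
    [Algebra E E'] {ζ : E'} (hζ : IsPrimitiveRoot ζ (Monoid.exponent (F ≃ₐ[ℚ] F)))
    {n : Type} [Fintype n] [DecidableEq n] (ρ : (QA ≃ₐ[ℚ] QA) →* Matrix n n E')
    (hρ : ∀ γ ∈ F.fixingSubgroup, ρ γ = 1) :
    ∃ (n₁ : Type) (_ : Fintype n₁) (_ : DecidableEq n₁) (ρ₁ : (QA ≃ₐ[ℚ] QA) →* Matrix n₁ n₁ E')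
      (n₂ : Type) (_ : Fintype n₂) (_ : DecidableEq n₂) (ρ₂ : (QA ≃ₐ[ℚ] QA) →* Matrix n₂ n₂ E')
      (A : Matrix (n ⊕ n₂) n₁ E') (B : Matrix n₁ (n ⊕ n₂) E'),
      GoodRep M ι c m m' ρ₁ ∧ HasL M ι ρ₁ ∧ GoodRep M ι c m m' ρ₂ ∧ HasL M ι ρ₂ ∧ A * B = 1 ∧ B * A = 1 ∧
      (∀ γ, dsum ρ ρ₂ γ * A = A * ρ₁ γ) ∧
      Fintype.card n + Fintype.card n₂ = Fintype.card n₁ := by
  classical
  have hπ : Function.Surjective (AlgEquiv.restrictNormalHom F : (QA ≃ₐ[ℚ] QA) →* (F ≃ₐ[ℚ] F)) :=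
    AlgEquiv.restrictNormalHom_surjective QA
  set π : (QA ≃ₐ[ℚ] QA) →* (F ≃ₐ[ℚ] F) := AlgEquiv.restrictNormalHom F with hπdef
  have hfin : ∀ {H : Type} [MulOneClass H] (f : (QA ≃ₐ[ℚ] QA) → H), (∀ γ ∈ F.fixingSubgroup, f γ = 1) →
      IsFinite F f := fun f hf => ⟨F, inferInstance, le_rfl, hf⟩
  let T : Set ((F ≃ₐ[ℚ] F) → E') := {f | ∃ (k : Type) (_ : Fintype k) (_ : DecidableEq k)
    (r : (QA ≃ₐ[ℚ] QA) →* Matrix k k E'), (∀ γ ∈ F.fixingSubgroup, r γ = 1) ∧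
      (∀ γ, (r γ).trace = f (π γ)) ∧ GoodRep M ι c m m' r ∧ HasL M ι r}
  have hadd : ∀ a ∈ T, ∀ b ∈ T, a + b ∈ T := by
    rintro a ⟨k, _, _, r, h1, h2, h3, h4⟩ b ⟨k', _, _, r', h1', h2', h3', h4'⟩
    refine ⟨k ⊕ k', inferInstance, inferInstance, dsum r r', fun γ hγ => ?_, fun γ => ?_,
      h3.dsum M ι c m m' h3', h4.dsum M ι h4'⟩
    · change fromBlocks (r γ) 0 0 (r' γ) = 1
      rw [h1 γ hγ, h1' γ hγ, fromBlocks_one]
    · rw [trace_dsum, h2, h2', Pi.add_apply]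
  have hind : ∀ (U : Subgroup (F ≃ₐ[ℚ] F)) (ψ : U →* E'ˣ), Group.IsNilpotent U →
      ind U (fun u => ((ψ u : E'ˣ) : E')) ∈ T := by
    intro U ψ hU
    obtain ⟨K, hK1, hK2, hK3⟩ := cor F (F ≃ₐ[ℚ] F) π
      (hfin π fun γ hγ => (mem_fix_iff F γ).1 hγ) U
    have hmap : K.fixingSubgroup.map π = U := by
      rw [hK3, Subgroup.map_comap_eq_self_of_surjective hπ]
    have hnil : Group.IsNilpotent (K.fixingSubgroup.map π) := by rw [hmap]; exact hU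
    have hψ : ∀ γ : K.fixingSubgroup, (γ : (QA ≃ₐ[ℚ] QA)) ∈ F.fixingSubgroup → pull hK3 ψ γ = 1 := by
      intro γ hγ
      have h1 : π (γ : (QA ≃ₐ[ℚ] QA)) = 1 := (mem_fix_iff F _).1 hγ
      change ψ _ = 1
      have h2 : ∀ x : U, (x : F ≃ₐ[ℚ] F) = 1 → ψ x = 1 := by
        intro x hx
        have : x = 1 := Subtype.ext hx
        rw [this, map_one]
      exact h2 _ h1
    obtain ⟨hLL, hR⟩ := h E' K hK2 hnil (pull hK3 ψ) hψ
    obtain ⟨L, hL, -⟩ := id hLL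
    have hif : IsFinite F (induced K (pull hK3 ψ)) :=
      hfin _ (induced_trivial F K hK2 _ hψ)
    refine ⟨K →ₐ[ℚ] QA, inferInstance, inferInstance, induced K (pull hK3 ψ),
      induced_trivial F K hK2 _ hψ, fun γ => chr E' _ π hπ U K hK3 ψ γ, ?_, hLL⟩
    obtain ⟨Ω, hΩ⟩ := pex E d M ι c hc E' (K →ₐ[ℚ] QA) F (induced K (pull hK3 ψ)) ((-1) ^ m) hif
    obtain ⟨Ω', hΩ'⟩ := pex E d M ι c hc E' (K →ₐ[ℚ] QA) F (induced K (pull hK3 ψ)) ((-1) ^ m') hif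
    obtain ⟨e, he, hτ⟩ := hR L Ω Ω' hL hΩ hΩ'
    choose a a' h1 h2 h3 h4 h5 using hτ
    exact ⟨a, a', Ω, Ω', e, ⟨L, hL, fun τ => ⟨h1 τ, h3 τ⟩⟩, ⟨L, hL, fun τ => ⟨h2 τ, h4 τ⟩⟩, hΩ, hΩ',
      he, h5⟩
  obtain ⟨r, hr⟩ := exists_quotient hπ ρ (fun γ hγ => hρ γ ((mem_fix_iff F γ).2 hγ))
  obtain ⟨τ₀⟩ : Nonempty (E' →+* ℂ) := inferInstance
  have hf : (fun g => τ₀ (r.character g)) ∈ AddSubgroup.closure (Irr (F ≃ₐ[ℚ] F)) := by
    have h1 := base_change τ₀ r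
    exact (AddSubmonoid.closure_le (S := (AddSubgroup.closure (Irr (F ≃ₐ[ℚ] F))).toAddSubmonoid)).2
      (fun x hx => AddSubgroup.subset_closure hx) h1
  obtain ⟨a, ⟨n₁, _, _, ρ₁, h1, h2, h3, h4⟩, b, ⟨n₂, _, _, ρ₂, k1, k2, k3, k4⟩, hab⟩ :=
    brauer_field hζ τ₀ T hadd hind r.character hf
  have htr : ∀ γ, (dsum ρ ρ₂ γ).trace = (ρ₁ γ).trace := by
    intro γ
    rw [trace_dsum, h2, k2, ← hr, ← hab, Pi.add_apply]
  obtain ⟨A, B, hAB, hBA, hA⟩ := iso E' F (n ⊕ n₂) n₁ (dsum ρ ρ₂) ρ₁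
    (hfin _ fun γ hγ => by
      change fromBlocks (ρ γ) 0 0 (ρ₂ γ) = 1
      rw [hρ γ hγ, k1 γ hγ, fromBlocks_one]) (hfin _ h1) htr
  refine ⟨n₁, inferInstance, inferInstance, ρ₁, n₂, inferInstance, inferInstance, ρ₂, A, B, h3, h4, k3, k4,
    hAB, hBA, hA, ?_⟩
  have h5 := htr 1
  rw [map_one, map_one, Matrix.trace_one, Matrix.trace_one, Fintype.card_sum] at h5
  exact_mod_cast h5

/-- **The ratio for all Artin representations of the Galois group of `F`.** -/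
theorem ratio_all (hc : c * c = 1) (F : IntermediateField ℚ QA) [Normal ℚ F]
    [FiniteDimensional ℚ F] (h : AbelianRatios M ι c m m' F) {E' : Type} [Field E'] [NumberField E']
    [Algebra E E'] {n : Type} [Fintype n] [DecidableEq n] (ρ : (QA ≃ₐ[ℚ] QA) →* Matrix n n E')
    (hρ : ∀ γ ∈ F.fixingSubgroup, ρ γ = 1) : HasL M ι ρ ∧ RatioAt M ι c m m' ρ := by
  have hne : NeZero (Monoid.exponent (F ≃ₐ[ℚ] F)) := ⟨Monoid.exponent_ne_zero_of_finite⟩
  obtain ⟨E'', _, _, _, _, _, ζ, hζ⟩ := exists_field E E' (Monoid.exponent (F ≃ₐ[ℚ] F))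
  obtain ⟨n₁, _, _, ρ₁, n₂, _, _, ρ₂, A, B, h1, l1, h2, l2, h3, h4, h5, h6⟩ :=
    decompose M ι c m m' hc F h hζ (baseRep E'' ρ) (fun γ hγ => by
      change (ρ γ).map (algebraMap E' E'') = 1
      rw [hρ γ hγ, Matrix.map_one _ (map_zero _) (map_one _)])
  have a1 : Algebra.IsAlgebraic E E'' := by
    have : FiniteDimensional E E'' := Module.Finite.of_restrictScalars_finite ℚ E E''
    exact Algebra.IsAlgebraic.of_finite E E''
  have a2 : Algebra.IsAlgebraic E E' := by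
    have : FiniteDimensional E E' := Module.Finite.of_restrictScalars_finite ℚ E E'
    exact Algebra.IsAlgebraic.of_finite E E'
  exact ⟨hasL_sub M ι E'' ρ l1 l2 A B h3 h4 h5,
    ratio_desc M ι c m m' E'' ρ (ratio_sub M ι c m m' h1 h2 A B h3 h4 h5 h6)⟩

/-- Deligne's conjecture at one point implies it at the other one -/
theorem deligne_of {E' : Type} [Field E'] [NumberField E'] [Algebra E E'] {n : Type} [Fintype n]
    [DecidableEq n] (hc : c * c = 1) (F : IntermediateField ℚ QA) [FiniteDimensional ℚ F]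
    (ρ : (QA ≃ₐ[ℚ] QA) →* Matrix n n E') (hρ : ∀ γ ∈ F.fixingSubgroup, ρ γ = 1)
    (h : RatioAt M ι c m m' ρ) (hD : DeligneConjecture M ι c m ρ) :
    DeligneConjecture M ι c m' ρ := by
  intro L Ω' hL hΩ'
  obtain ⟨Ω, hΩ⟩ := pex E d M ι c hc E' n F ρ ((-1) ^ m) ⟨F, inferInstance, le_rfl, hρ⟩
  obtain ⟨f, hf⟩ := hD L Ω hL hΩ
  obtain ⟨e, he, h1⟩ := h L Ω Ω' hL hΩ hΩ'
  refine ⟨f / e, fun τ => ?_⟩
  obtain ⟨a, a', h2, h3, h4, h5, h6⟩ := h1 τ
  have h7 := tendsto_nhds_unique h4 (hf τ)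
  have hΩ0 : Ω τ ≠ 0 := pne E d M ι c E' n ρ _ Ω hΩ τ
  have he' : ι (τ e) ≠ 0 := (map_ne_zero ι).2 ((map_ne_zero τ).2 he)
  have h8 := twoPiI_ne m (d * Fintype.card n)
  have h9 : (2 * Real.pi * Complex.I : ℂ) ^ (m * ((d : ℤ) * (Fintype.card n : ℤ))) =
      twoPiI m (d * Fintype.card n) := by
    unfold twoPiI
    push_cast
    rfl
  have h10 : (2 * Real.pi * Complex.I : ℂ) ^ (m' * ((d : ℤ) * (Fintype.card n : ℤ))) =
      twoPiI m' (d * Fintype.card n) := by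
    unfold twoPiI
    push_cast
    rfl
  rw [h9] at h7
  rw [h10]
  have h11 : a' = ι (τ (f / e)) * twoPiI m' (d * Fintype.card n) * Ω' τ := by
    rw [h7] at h6
    apply mul_right_cancel₀ (b := ι (τ e) * (twoPiI m (d * Fintype.card n) * Ω τ))
      (mul_ne_zero he' (mul_ne_zero h8 hΩ0))
    rw [map_div₀, map_div₀]
    have hfe : ι (τ f) / ι (τ e) * ι (τ e) = ι (τ f) := div_mul_cancel₀ _ he'
    linear_combination -h6 -
      (twoPiI m (d * Fintype.card n) * Ω τ * (twoPiI m' (d * Fintype.card n) * Ω' τ)) * hfe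
  rw [← h11]
  exact h5

/-- the roles of the two points can be exchanged -/
theorem RatioAt.symm {E' : Type} [Field E'] [Algebra E E'] {n : Type} [Fintype n]
    [DecidableEq n] {ρ : (QA ≃ₐ[ℚ] QA) →* Matrix n n E'} (h : RatioAt M ι c m m' ρ) :
    RatioAt M ι c m' m ρ := by
  intro L Ω Ω' hL hΩ hΩ'
  obtain ⟨e, he, h1⟩ := h L Ω' Ω hL hΩ' hΩ
  refine ⟨e⁻¹, inv_ne_zero he, fun τ => ?_⟩
  obtain ⟨a, a', h2, h3, h4, h5, h6⟩ := h1 τ
  refine ⟨a', a, h3, h2, h5, h4, ?_⟩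
  have he' : ι (τ e) ≠ 0 := (map_ne_zero ι).2 ((map_ne_zero τ).2 he)
  rw [h6, map_inv₀, map_inv₀, inv_mul_cancel_left₀ he']

end

end Pool.Agent.Helper51K9.RG
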