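import Pool.Agent.Helper51K9.RG.Main

/-!
# Points of the same parity
-/

set_option autoImplicit false
set_option linter.unusedSectionVars false

namespace Pool.Agent.Helper51K9.RG

open Matrix Polynomial Filter Topology NumberField Pool.Agent.Helper8K9.DG

variable {QA : Type} [Field QA] [CharZero QA] [IsAlgClosed QA] [Algebra.IsAlgebraic ℚ QA]
  {KK : Type} [Field KK] [IsAlgClosed KK]

theorem sign_eq {m m' : ℤ} (h : Even (m - m')) : ((-1 : ℤˣ)) ^ m = (-1) ^ m' := by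
  obtain ⟨k, hk⟩ := h
  have h1 : m = m' + (k + k) := by omega
  rw [h1, _root_.zpow_add, _root_.zpow_add]
  have h2 : ((-1 : ℤˣ) ^ k) * (-1) ^ k = 1 := by
    rw [← mul_zpow]
    simp
  rw [h2, mul_one]

section

variable {E : Type} [Field E] {d : ℕ} (M : Motive QA KK E d) (ι : QA →+* ℂ) (c : (QA ≃ₐ[ℚ] QA))
  (m m' : ℤ) {E' : Type} [Field E'] [NumberField E'] [Algebra E E'] {n : Type} [Fintype n]
  [DecidableEq n]

theorem ratio_of_plain (hm : Even (m - m')) {ρ : (QA ≃ₐ[ℚ] QA) →* Matrix n n E'}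
    (h : PlainRatioAt M ι m m' ρ) : RatioAt M ι c m m' ρ := by
  intro L Ω Ω' hL hΩ hΩ'
  rw [← sign_eq hm] at hΩ'
  obtain ⟨u, hu, hu1⟩ := puni E d M ι c E' n ρ _ Ω' Ω hΩ' hΩ
  obtain ⟨e, he, h1⟩ := h L hL
  refine ⟨e * u, mul_ne_zero he hu, fun τ => ?_⟩
  obtain ⟨a, a', h2, h3, h4, h5, h6⟩ := h1 τ
  refine ⟨a, a', h2, h3, h4, h5, ?_⟩
  rw [hu1 τ, map_mul, map_mul]
  linear_combination (ι (τ u) * Ω τ) * h6

theorem plain_of_ratio (hm : Even (m - m')) (hc : c * c = 1) {ρ : (QA ≃ₐ[ℚ] QA) →* Matrix n n E'}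
    {F : IntermediateField ℚ QA} [FiniteDimensional ℚ F] (hρ : ∀ γ ∈ F.fixingSubgroup, ρ γ = 1)
    (h : RatioAt M ι c m m' ρ) : PlainRatioAt M ι m m' ρ := by
  intro L hL
  obtain ⟨Ω, hΩ⟩ := pex E d M ι c hc E' n F ρ ((-1) ^ m) ⟨F, inferInstance, le_rfl, hρ⟩
  obtain ⟨e, he, h1⟩ := h L Ω Ω hL hΩ (by rw [← sign_eq hm]; exact hΩ)
  refine ⟨e, he, fun τ => ?_⟩
  obtain ⟨a, a', h2, h3, h4, h5, h6⟩ := h1 τ
  refine ⟨a, a', h2, h3, h4, h5, ?_⟩
  have hΩ0 : Ω τ ≠ 0 := pne E d M ι c E' n ρ _ Ω hΩ τ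
  apply mul_right_cancel₀ hΩ0
  linear_combination h6

theorem abelian_of_plain (hm : Even (m - m')) (F : IntermediateField ℚ QA) [Normal ℚ F]
    (h : PlainAbelianRatios M ι m m' F) : AbelianRatios M ι c m m' F := by
  classical
  intro E' _ _ _ K _ hK hnil ψ hψ
  obtain ⟨h1, h2⟩ := h E' K hK hnil ψ hψ
  exact ⟨h1, ratio_of_plain M ι c m m' hm h2⟩

theorem conj_sq (hc : ∀ x, ι (c x) = starRingEnd ℂ (ι x)) : c * c = 1 := by
  ext x
  apply ι.injective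
  rw [AlgEquiv.mul_apply, hc, hc, Complex.conj_conj, AlgEquiv.one_apply]

end

end Pool.Agent.Helper51K9.RG
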